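import Pool.Agent.PFE.StmtsE2c

/-!
# Squad PFE (theorem (R)), row AUG (helper28): the units of `F V`
-/

open scoped BigOperators

noncomputable section

namespace Pool.Agent.PFE.H28

theorem aug : AugStmt := by
  intro ℓ _ F V _ _ _ _ hP x
  classical
  haveI : CharP (MonoidAlgebra F V) ℓ :=
    charP_of_injective_algebraMap (algebraMap F (MonoidAlgebra F V)).injective ℓ
  obtain ⟨n, hn⟩ := IsPGroup.iff_card.1 hP
  have hv : ∀ v : V, v ^ ℓ ^ n = 1 := fun v => by rw [← hn]; exact pow_card_eq_one'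
  have hx : x = ∑ v, MonoidAlgebra.single v (x.coeff v) := by
    ext w
    simp [MonoidAlgebra.coeff_single, Finsupp.single_apply]
  have key : x ^ ℓ ^ n = MonoidAlgebra.single (1 : V) ((∑ v, x.coeff v) ^ ℓ ^ n) := by
    conv_lhs => rw [hx]
    rw [sum_pow_char_pow, sum_pow_char_pow]
    simp only [MonoidAlgebra.single_pow, hv]
    ext w
    simp [MonoidAlgebra.coeff_single, Finsupp.single_apply]
  let ε : MonoidAlgebra F V →ₐ[F] F := MonoidAlgebra.lift F F V (1 : V →* F)
  have hε : ε x = ∑ v, x.coeff v := by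
    conv_lhs => rw [hx]
    rw [map_sum]
    refine Finset.sum_congr rfl fun v _ => ?_
    simp [ε, MonoidAlgebra.lift_single]
  constructor
  · intro hu
    have := hu.map ε
    rw [hε] at this
    exact this.ne_zero
  · intro h0
    have h1 : IsUnit (x ^ ℓ ^ n) := by
      rw [key]
      refine IsUnit.of_mul_eq_one (MonoidAlgebra.single (1 : V) (((∑ v, x.coeff v) ^ ℓ ^ n)⁻¹)) ?_
      rw [MonoidAlgebra.single_mul_single, one_mul, mul_inv_cancel₀ (pow_ne_zero _ h0)]
      rfl
    exact (isUnit_pow_iff (pow_ne_zero _ (Fact.out : ℓ.Prime).ne_zero)).1 h1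

end Pool.Agent.PFE.H28
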