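import Pool.Agent.PFE.StmtsE2

/-! Squad PFE, part E2: rows FRT (transport of a frame) and FRA (the deformation has a frame). -/

set_option autoImplicit false

open scoped BigOperators

noncomputable section

namespace Pool.Agent.PFE.H28

open MulOpposite
open Pool.Agent.PFC.B1 (FS Split BiM Sep)
open Pool.Agent.PFD (RF)
open Pool.Agent.PFD.D2
open Pool.Agent.PFD.D2b (wrp FPl FrR WFS)

theorem wrp_hom {R Γ W N N' : Type} [CommRing R] [CommRing Γ] [Algebra R Γ] [CommGroup W]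
    [AddCommGroup N] [Module R N] [AddCommGroup N'] [Module R N'] (om : W →* Γ)
    {B : BiM R Γ N} {B' : BiM R Γ N'} {i : N' →ₗ[R] N} (hi : BHom B' B i) (w : W × W) (n : N') :
    i (wrp om B' w n) = wrp om B w (i n) := by
  change i (B'.lm _ (B'.rm _ n)) = B.lm _ (B.rm _ (i n))
  rw [hi.1, hi.2]

theorem frt : FrtStmt := by
  intro R Γ W N N' X Ω Ω' _ _ _ _ _ _ _ _ _ _ _ _ _ _ l G χ B B' q F i p hi hp
  refine ⟨{ deg := F.deg, dg := F.dg, fo := F.fo, fo' := F.fo', g := fun o => p (F.g o),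
            gw := ?_, gy := ?_, c := fun o => (F.c o).comp i, cw := ?_, cy := ?_,
            h := fun o => p (F.h o), hw := ?_, d := fun o => (F.d o).comp i, dw := ?_,
            fr := ?_ }⟩
  · intro w o
    rw [F.gw, wrp_hom G.om hp]
  · intro o
    rw [← hp.1, F.gy, map_smul, hp.2]
  · intro w o n
    change F.c (w • o) (i (wrp G.om B' w n)) = F.c o (i n)
    rw [wrp_hom G.om hi, F.cw]
  · intro o n
    change F.c o (i (B'.lm G.y n)) = χ (F.deg o) * F.c o (i (B'.rm (op G.y) n))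
    rw [hi.1, hi.2, F.cy]
  · intro w o
    rw [F.hw, wrp_hom G.om hp]
  · intro w o n
    change F.d (w • o) (i (wrp G.om B' w n)) = F.d o (i n)
    rw [wrp_hom G.om hi, F.dw]
  · intro n
    have h1 := congrArg p (F.fr (i n))
    simp only [map_add, map_sum, map_smul, hp.1, hp.2] at h1
    simp only [LinearMap.comp_apply, hi.1, hi.2]
    exact h1

theorem fra (hGFR : GfrStmt) (hFRT : FrtStmt) (hFRS : FrsStmt) : FraStmt := by
  intro R F Γ Γ0 W A A1 X M M0 Ω Ω' _ _ c _ _ _ _ _ _ _ _ _ _ _ _ _ _ _ _ _ _ _ l G χ f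
    BX B0 sp0 FX df hl
  obtain ⟨Ω2, Ω2', _, _, _, _, ⟨F2⟩⟩ := hGFR R Γ W X l G χ hl
  have h1 : BHom (AB df.sp.j) (regB R Γ) df.sp.pr :=
    ⟨fun γ x => df.sp.pr_l γ x, fun γ x => df.sp.pr_r x γ.unop⟩
  have h2 : BHom (regB R Γ) (AB df.sp.j) df.sp.j.toLinearMap :=
    ⟨fun γ x => map_mul df.sp.j γ x, fun γ x => map_mul df.sp.j x γ.unop⟩
  have h3 : BHom (AB df.sp.j) BX df.sp.i :=
    ⟨fun γ x => df.sp.i1 γ x, fun γ x => df.sp.i2 γ.unop x⟩
  have h4 : BHom BX (AB df.sp.j) df.sp.p :=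
    ⟨fun γ x => df.sp.p1 γ x, fun γ x => df.sp.p2 γ.unop x⟩
  obtain ⟨G1⟩ := hFRT R Γ W Γ A1 X Ω2 Ω2' l G χ (regB R Γ) (AB df.sp.j) LinearMap.id F2
    df.sp.pr df.sp.j.toLinearMap h1 h2
  obtain ⟨G2⟩ := hFRT R Γ W M A1 X Ω Ω' l G χ BX (AB df.sp.j) LinearMap.id FX
    df.sp.i df.sp.p h3 h4
  obtain ⟨Ω1, Ω1', i1, i2, i3, i4, ⟨G3⟩⟩ := hFRS R Γ W A1 X Ω2 Ω2' Ω Ω' l G χ (AB df.sp.j) _ _ G1 G2
  have h5 : df.sp.j.toLinearMap ∘ₗ LinearMap.id ∘ₗ df.sp.pr + df.sp.p ∘ₗ LinearMap.id ∘ₗ df.sp.i =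
      (LinearMap.id : A1 →ₗ[R] A1) := by
    ext x
    change df.sp.j (df.sp.pr x) + df.sp.p (df.sp.i x) = x
    rw [df.sp.ip]
    exact add_sub_cancel _ _
  rw [h5] at G3
  let ly : LY A1 Ω1 Ω1' G χ f sp0.j sp0.pr :=
    { fb := df.fb
      j := df.sp.j
      pr := df.sp.pr
      pr_j := df.sp.pr_j
      pr_l := df.sp.pr_l
      pr_r := df.sp.pr_r
      cj := df.cj
      cp := df.cp
      fr := G3 }
  exact ⟨Ω1, Ω1', i1, i2, i3, i4, ⟨ly⟩⟩

end Pool.Agent.PFE.H28
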