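import Pool.Agent.PFE.StmtsE2

/-! Squad PFE, part E2: row MFY (the family which belongs to a balanced map modulo `p`). -/

set_option autoImplicit false

open scoped BigOperators

noncomputable section

namespace Pool.Agent.PFE.H28

open MulOpposite
open Pool.Agent.PFC.B1 (FS Split BiM Sep)
open Pool.Agent.PFD (RF)
open Pool.Agent.PFD.D2
open Pool.Agent.PFD.D2b (wrp FPl FrR WFS)

/-- congruence modulo `p` -/
def Cg {R N : Type} [CommRing R] [AddCommGroup N] [Module R N] (p : R) (a b : N) : Prop :=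
  ∃ n, a - b = p • n

namespace Cg

variable {R N N' : Type} [CommRing R] [AddCommGroup N] [Module R N] [AddCommGroup N']
  [Module R N'] {p : R}

theorem refl (a : N) : Cg p a a := ⟨0, by rw [sub_self, smul_zero]⟩

theorem of_eq {a b : N} (h : a = b) : Cg p a b := h ▸ refl a

theorem symm {a b : N} (h : Cg p a b) : Cg p b a := by
  obtain ⟨n, hn⟩ := h
  exact ⟨-n, by rw [smul_neg, ← hn, neg_sub]⟩

theorem trans {a b c : N} (h : Cg p a b) (h' : Cg p b c) : Cg p a c := by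
  obtain ⟨n, hn⟩ := h
  obtain ⟨n', hn'⟩ := h'
  exact ⟨n + n', by rw [smul_add, ← hn, ← hn', sub_add_sub_cancel]⟩

theorem map (f : N →ₗ[R] N') {a b : N} (h : Cg p a b) : Cg p (f a) (f b) := by
  obtain ⟨n, hn⟩ := h
  exact ⟨f n, by rw [← map_sub, hn, map_smul]⟩

theorem smul (r : R) {a b : N} (h : Cg p a b) : Cg p (r • a) (r • b) := by
  obtain ⟨n, hn⟩ := h
  exact ⟨r • n, by rw [← smul_sub, hn, smul_comm]⟩

end Cg

/-- the action of `W × W × W` on a product -/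
def act3 (W T T' : Type) [CommGroup W] [MulAction (W × W) T] [MulAction (W × W) T'] :
    MulAction (W × W × W) (T × T') where
  smul := fun h i => (((h.1, h.2.1) : W × W) • i.1, ((h.2.1, h.2.2) : W × W) • i.2)
  one_smul := fun i => Prod.ext (one_smul (W × W) i.1) (one_smul (W × W) i.2)
  mul_smul := fun a b i => Prod.ext (mul_smul ((a.1, a.2.1) : W × W) (b.1, b.2.1) i.1)
    (mul_smul ((a.2.1, a.2.2) : W × W) (b.2.1, b.2.2) i.2)

/-- `(u, v, w) ↦ (u, w)` -/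
def pr13 (W : Type) [CommGroup W] : W × W × W →* W × W where
  toFun := fun h => (h.1, h.2.2)
  map_one' := rfl
  map_mul' := fun _ _ => rfl

section

variable {R Γ W M N : Type} [CommRing R] [CommRing Γ] [Algebra R Γ] [CommGroup W]
  [AddCommGroup M] [Module R M] [AddCommGroup N] [Module R N]

theorem lm_lm (B : BiM R Γ M) (a b : Γ) (n : M) : B.lm a (B.lm b n) = B.lm (a * b) n := by
  rw [map_mul, Module.End.mul_apply]

theorem rm_rm (B : BiM R Γ M) (a b : Γ) (n : M) :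
    B.rm (op a) (B.rm (op b) n) = B.rm (op (a * b)) n := by
  rw [mul_comm a b, op_mul, map_mul, Module.End.mul_apply]

theorem lm_zero (B : BiM R Γ M) (n : M) : B.lm 0 n = 0 := by rw [map_zero, LinearMap.zero_apply]

theorem rm_zero (B : BiM R Γ M) (n : M) : B.rm (op (0 : Γ)) n = 0 := by
  rw [op_zero, map_zero, LinearMap.zero_apply]

theorem wrp_lm (om : W →* Γ) (B : BiM R Γ M) (w : W × W) (a : Γ) (n : M) :
    B.lm a (wrp om B w n) = wrp om B w (B.lm a n) := by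
  change B.lm a (B.lm (om w.1) (B.rm (op (om w.2⁻¹)) n)) =
    B.lm (om w.1) (B.rm (op (om w.2⁻¹)) (B.lm a n))
  rw [← B.comm a, lm_lm, lm_lm, mul_comm]

theorem wrp_rm (om : W →* Γ) (B : BiM R Γ M) (w : W × W) (a : Γ) (n : M) :
    B.rm (op a) (wrp om B w n) = wrp om B w (B.rm (op a) n) := by
  change B.rm (op a) (B.lm (om w.1) (B.rm (op (om w.2⁻¹)) n)) =
    B.lm (om w.1) (B.rm (op (om w.2⁻¹)) (B.rm (op a) n))
  rw [← B.comm, rm_rm, rm_rm, mul_comm]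

theorem bal_wrp (om : W →* Γ) {BX : BiM R Γ M} {BN : BiM R Γ N} {p : R} {β : M →ₗ[R] M →ₗ[R] N}
    (hβ : Bal2P p BX BN β) (u v w : W) (n n' : M) :
    Cg p (β (wrp om BX (u, v) n) (wrp om BX (v, w) n')) (wrp om BN (u, w) (β n n')) := by
  have h1 : Cg p (β (BX.lm (om u) (BX.rm (op (om v⁻¹)) n)) (BX.lm (om v) (BX.rm (op (om w⁻¹)) n')))
      (BN.lm (om u) (β (BX.rm (op (om v⁻¹)) n) (BX.lm (om v) (BX.rm (op (om w⁻¹)) n')))) :=
    hβ.1 _ _ _
  have h2 : Cg p (β (BX.rm (op (om v⁻¹)) n) (BX.lm (om v) (BX.rm (op (om w⁻¹)) n')))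
      (β n (BX.lm (om v⁻¹) (BX.lm (om v) (BX.rm (op (om w⁻¹)) n')))) := hβ.2.1 _ _ _
  have h3 : BX.lm (om v⁻¹) (BX.lm (om v) (BX.rm (op (om w⁻¹)) n')) = BX.rm (op (om w⁻¹)) n' := by
    rw [lm_lm, ← map_mul, inv_mul_cancel, map_one, map_one, Module.End.one_apply]
  rw [h3] at h2
  have h4 : Cg p (β n (BX.rm (op (om w⁻¹)) n')) (BN.rm (op (om w⁻¹)) (β n n')) := hβ.2.2 _ _ _
  exact h1.trans ((h2.trans h4).map _)

end

/-- the sum over the indices of the second kind -/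
theorem sum_shift {Ω' N : Type} [Fintype Ω'] [AddCommGroup N] {l : ℕ} (F : Ω' → ℕ → N) (o : Ω')
    (k : Fin l) (h0 : F o l = 0) (c : Ω' × Fin l → N)
    (hc1 : ∀ p : Ω' × Fin l, o = p.1 → (k : ℕ) + 1 = (p.2 : ℕ) → c p = F p.1 p.2)
    (hc0 : ∀ p : Ω' × Fin l, ¬ (o = p.1 ∧ (k : ℕ) + 1 = (p.2 : ℕ)) → c p = 0) :
    ∑ p, c p = F o ((k : ℕ) + 1) := by
  classical
  by_cases hk : (k : ℕ) + 1 < l
  · rw [Finset.sum_eq_single ((o, ⟨(k : ℕ) + 1, hk⟩) : Ω' × Fin l)]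
    · exact hc1 _ rfl rfl
    · intro q _ hq
      apply hc0
      rintro ⟨h1, h2⟩
      apply hq
      exact Prod.ext h1.symm (Fin.ext h2.symm)
    · intro h
      exact absurd (Finset.mem_univ _) h
  · have hk' : (k : ℕ) + 1 = l := by have := k.2; omega
    rw [hk', h0]
    apply Finset.sum_eq_zero
    intro q _
    apply hc0
    rintro ⟨-, h2⟩
    have := q.2.2
    omega

theorem mfy (hKEF : KefStmt) : MfyStmt := by
  classical
  intro R Γ W M N X Ω Ω' Ω1 Ω1' _ _ _ _ _ _ _ _ _ _ _ _ _ _ _ _ _ _ l G χ BX BN FX FN p β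
    hl hχ hu hβ
  letI a11 : MulAction (W × W × W) (Ω × Ω) := act3 W Ω Ω
  letI a12 : MulAction (W × W × W) (Ω × Ω') := act3 W Ω Ω'
  letI a21 : MulAction (W × W × W) (Ω' × Ω) := act3 W Ω' Ω
  letI a22 : MulAction (W × W × W) (Ω' × Ω') := act3 W Ω' Ω'
  -- powers of `y` at the generators of the first kind
  have hpow : ∀ (o : Ω) (k : ℕ), BX.lm (G.y ^ k) (FX.g o) =
      χ (FX.deg o) ^ k • BX.rm (op (G.y ^ k)) (FX.g o) := by
    intro o k
    induction k with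
    | zero => rw [pow_zero, pow_zero, map_one, op_one, map_one, one_smul]
    | succ k ih =>
      rw [pow_succ', ← lm_lm, ih, map_smul, BX.comm, FX.gy, map_smul, rm_rm, ← pow_succ,
        smul_smul, ← pow_succ, pow_succ' G.y k, ← pow_succ' G.y k]
  have hcc : ∀ x : X, χ x⁻¹ * χ x = 1 := fun x => by rw [← map_mul, inv_mul_cancel, map_one]
  have hy : ∀ k : ℕ, l ≤ k → G.y ^ k = 0 := by
    intro k hk
    obtain ⟨j, rfl⟩ := Nat.exists_eq_add_of_le hk
    rw [pow_add, G.yl, zero_mul]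
  -- the lifts
  obtain ⟨-, h11⟩ := hKEF R Γ W N X Ω1 Ω1' (W × W × W) (Ω × Ω) l G χ BN FN (pr13 W)
    (fun i => FX.deg i.1 * FX.deg i.2) p (fun i => β (FX.g i.1) (FX.g i.2)) hl hχ hu
    (by
      rintro ⟨u, v, w⟩ ⟨o, o'⟩
      change FX.deg ((u, v) • o) * FX.deg ((v, w) • o') = FX.deg o * FX.deg o'
      rw [FX.dg, FX.dg])
    (by
      rintro ⟨u, v, w⟩ ⟨o, o'⟩
      change Cg p (β (FX.g ((u, v) • o)) (FX.g ((v, w) • o'))) (wrp G.om BN (u, w) (β (FX.g o) (FX.g o')))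
      rw [FX.gw, FX.gw]
      exact bal_wrp G.om hβ u v w _ _)
  obtain ⟨m11, e11, t11, c11⟩ := h11 (by
    rintro ⟨o, o'⟩
    change Cg p (BN.lm G.y (β (FX.g o) (FX.g o')))
      (χ (FX.deg o * FX.deg o') • BN.rm (op G.y) (β (FX.g o) (FX.g o')))
    have s1 : Cg p (BN.lm G.y (β (FX.g o) (FX.g o'))) (β (BX.lm G.y (FX.g o)) (FX.g o')) :=
      Cg.symm (hβ.1 _ _ _)
    have s2 : β (BX.lm G.y (FX.g o)) (FX.g o') =
        χ (FX.deg o) • β (BX.rm (op G.y) (FX.g o)) (FX.g o') := by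
      rw [FX.gy, map_smul, LinearMap.smul_apply]
    have s3 : Cg p (β (BX.rm (op G.y) (FX.g o)) (FX.g o')) (β (FX.g o) (BX.lm G.y (FX.g o'))) :=
      hβ.2.1 _ _ _
    have s4 : β (FX.g o) (BX.lm G.y (FX.g o')) =
        χ (FX.deg o') • β (FX.g o) (BX.rm (op G.y) (FX.g o')) := by
      rw [FX.gy, map_smul]
    have s5 : Cg p (β (FX.g o) (BX.rm (op G.y) (FX.g o'))) (BN.rm (op G.y) (β (FX.g o) (FX.g o'))) :=
      hβ.2.2 _ _ _
    rw [s2] at s1
    rw [s4] at s3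
    rw [map_mul, ← smul_smul]
    exact s1.trans ((s3.trans (s5.smul _)).smul _))
  obtain ⟨⟨m12, e12, c12⟩, -⟩ := hKEF R Γ W N X Ω1 Ω1' (W × W × W) (Ω × Ω') l G χ BN FN (pr13 W)
    (fun _ => 1) p (fun i => β (FX.g i.1) (FX.h i.2)) hl hχ hu (fun _ _ => rfl)
    (by
      rintro ⟨u, v, w⟩ ⟨o, o'⟩
      change Cg p (β (FX.g ((u, v) • o)) (FX.h ((v, w) • o'))) (wrp G.om BN (u, w) (β (FX.g o) (FX.h o')))
      rw [FX.gw, FX.hw]
      exact bal_wrp G.om hβ u v w _ _)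
  obtain ⟨⟨m21, e21, c21⟩, -⟩ := hKEF R Γ W N X Ω1 Ω1' (W × W × W) (Ω' × Ω) l G χ BN FN (pr13 W)
    (fun _ => 1) p (fun i => β (FX.h i.1) (FX.g i.2)) hl hχ hu (fun _ _ => rfl)
    (by
      rintro ⟨u, v, w⟩ ⟨o, o'⟩
      change Cg p (β (FX.h ((u, v) • o)) (FX.g ((v, w) • o'))) (wrp G.om BN (u, w) (β (FX.h o) (FX.g o')))
      rw [FX.gw, FX.hw]
      exact bal_wrp G.om hβ u v w _ _)
  have h22 : ∀ k : ℕ, ∃ m : Ω' × Ω' → N,
      (∀ (h : W × W × W) (i : Ω' × Ω'), m (h • i) = wrp G.om BN (pr13 W h) (m i)) ∧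
      ∀ i, Cg p (m i) (β (BX.rm (op (G.y ^ k)) (FX.h i.1)) (FX.h i.2)) := by
    intro k
    obtain ⟨h, -⟩ := hKEF R Γ W N X Ω1 Ω1' (W × W × W) (Ω' × Ω') l G χ BN FN (pr13 W)
      (fun _ => 1) p (fun i => β (BX.rm (op (G.y ^ k)) (FX.h i.1)) (FX.h i.2)) hl hχ hu
      (fun _ _ => rfl)
      (by
        rintro ⟨u, v, w⟩ ⟨o, o'⟩
        change Cg p (β (BX.rm (op (G.y ^ k)) (FX.h ((u, v) • o))) (FX.h ((v, w) • o')))
          (wrp G.om BN (u, w) (β (BX.rm (op (G.y ^ k)) (FX.h o)) (FX.h o')))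
        rw [FX.hw, FX.hw, wrp_rm]
        exact bal_wrp G.om hβ u v w _ _)
    exact h
  choose m22 e22 c22 using h22
  -- the family
  obtain ⟨b12, hb12⟩ : ∃ b12 : Ω → Ω' → ℕ → N, b12 = fun o o' k =>
    χ (FX.deg o)⁻¹ ^ k • BN.lm (G.y ^ k) (m12 (o, o')) := ⟨_, rfl⟩
  obtain ⟨b21, hb21⟩ : ∃ b21 : Ω → Ω' → ℕ → N, b21 = fun o' o k =>
    χ (FX.deg o') ^ k • BN.rm (op (G.y ^ k)) (m21 (o, o')) := ⟨_, rfl⟩
  obtain ⟨b22, hb22⟩ : ∃ b22 : ℕ → Ω' → Ω' → N, b22 = fun j o o' =>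
    if j < l then m22 j (o, o') else 0 := ⟨_, rfl⟩
  let μ : Ω ⊕ (Ω' × Fin l) → Ω ⊕ (Ω' × Fin l) → N := fun ξ ξ' =>
    match ξ, ξ' with
    | Sum.inl o, Sum.inl o' => m11 (o, o')
    | Sum.inl o, Sum.inr q => b12 o q.1 q.2
    | Sum.inr q, Sum.inl o' => b21 o' q.1 q.2
    | Sum.inr q, Sum.inr q' => b22 ((q.2 : ℕ) + q'.2) q.1 q'.1
  have z12 : ∀ o o' (k : ℕ), l ≤ k → b12 o o' k = 0 := by
    intro o o' k hk
    rw [hb12]
    simp only
    rw [hy k hk, lm_zero, smul_zero]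
  have z21 : ∀ o o' (k : ℕ), l ≤ k → b21 o o' k = 0 := by
    intro o o' k hk
    rw [hb21]
    simp only
    rw [hy k hk, rm_zero, smul_zero]
  have z22 : ∀ (j : ℕ) o o', l ≤ j → b22 j o o' = 0 := by
    intro j o o' hj
    rw [hb22]
    simp only
    rw [if_neg (by omega)]
  -- the two sums
  have sP : ∀ η ξ', ∑ ξ, BN.lm (pP G χ FX.deg η ξ) (μ ξ ξ') = (match η with
      | Sum.inl o => χ (FX.deg o)⁻¹ • BN.lm G.y (μ (Sum.inl o) ξ')
      | Sum.inr q => (match ξ' with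
        | Sum.inl o' => b21 o' q.1 ((q.2 : ℕ) + 1)
        | Sum.inr q' => b22 ((q.2 : ℕ) + 1 + q'.2) q.1 q'.1)) := by
    intro η ξ'
    rw [Fintype.sum_sum_type]
    rcases η with o | q
    · have h1 : ∑ x : Ω' × Fin l, BN.lm (pP G χ FX.deg (Sum.inl o) (Sum.inr x)) (μ (Sum.inr x) ξ') = 0 :=
        Finset.sum_eq_zero fun x _ => lm_zero _ _
      rw [h1, add_zero, Finset.sum_eq_single o]
      · change BN.lm (if o = o then χ (FX.deg o)⁻¹ • G.y else 0) _ = _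
        rw [if_pos rfl, map_smul, LinearMap.smul_apply]
      · intro o1 _ ho1
        change BN.lm (if o = o1 then χ (FX.deg o)⁻¹ • G.y else 0) _ = _
        rw [if_neg (fun h => ho1 h.symm), lm_zero]
      · intro h
        exact absurd (Finset.mem_univ _) h
    · have h1 : ∑ x : Ω, BN.lm (pP G χ FX.deg (Sum.inr q) (Sum.inl x)) (μ (Sum.inl x) ξ') = 0 :=
        Finset.sum_eq_zero fun x _ => lm_zero _ _
      rw [h1, zero_add]
      rcases ξ' with o' | q'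
      · refine sum_shift (fun o k => b21 o' o k) q.1 q.2 (z21 _ _ _ le_rfl) _ ?_ ?_
        · intro x hx1 hx2
          change BN.lm (if q.1 = x.1 ∧ (q.2 : ℕ) + 1 = (x.2 : ℕ) then (1 : Γ) else 0) _ = _
          rw [if_pos ⟨hx1, hx2⟩, map_one, Module.End.one_apply]
        · intro x hx
          change BN.lm (if q.1 = x.1 ∧ (q.2 : ℕ) + 1 = (x.2 : ℕ) then (1 : Γ) else 0) _ = _
          rw [if_neg hx, lm_zero]
      · refine sum_shift (fun o k => b22 (k + q'.2) o q'.1) q.1 q.2 (z22 _ _ _ (Nat.le_add_right _ _)) _ ?_ ?_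
        · intro x hx1 hx2
          change BN.lm (if q.1 = x.1 ∧ (q.2 : ℕ) + 1 = (x.2 : ℕ) then (1 : Γ) else 0) _ = _
          rw [if_pos ⟨hx1, hx2⟩, map_one, Module.End.one_apply]
        · intro x hx
          change BN.lm (if q.1 = x.1 ∧ (q.2 : ℕ) + 1 = (x.2 : ℕ) then (1 : Γ) else 0) _ = _
          rw [if_neg hx, lm_zero]
  have sQ : ∀ η ξ', ∑ ξ, BN.rm (op (pQ G χ FX.deg ξ ξ')) (μ η ξ) = (match ξ' with
      | Sum.inl o' => χ (FX.deg o') • BN.rm (op G.y) (μ η (Sum.inl o'))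
      | Sum.inr q' => (match η with
        | Sum.inl o => b12 o q'.1 ((q'.2 : ℕ) + 1)
        | Sum.inr q => b22 ((q.2 : ℕ) + ((q'.2 : ℕ) + 1)) q.1 q'.1)) := by
    intro η ξ'
    rw [Fintype.sum_sum_type]
    rcases ξ' with o' | q'
    · have h1 : ∑ x : Ω' × Fin l, BN.rm (op (pQ G χ FX.deg (Sum.inr x) (Sum.inl o'))) (μ η (Sum.inr x)) = 0 :=
        Finset.sum_eq_zero fun x _ => rm_zero _ _
      rw [h1, add_zero, Finset.sum_eq_single o']
      · change BN.rm (op (if o' = o' then χ (FX.deg o') • G.y else 0)) _ = _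
        rw [if_pos rfl, op_smul, map_smul, LinearMap.smul_apply]
      · intro o1 _ ho1
        change BN.rm (op (if o1 = o' then χ (FX.deg o1) • G.y else 0)) _ = _
        rw [if_neg ho1, rm_zero]
      · intro h
        exact absurd (Finset.mem_univ _) h
    · have h1 : ∑ x : Ω, BN.rm (op (pQ G χ FX.deg (Sum.inl x) (Sum.inr q'))) (μ η (Sum.inl x)) = 0 :=
        Finset.sum_eq_zero fun x _ => rm_zero _ _
      rw [h1, zero_add]
      rcases η with o | q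
      · refine sum_shift (fun o' k => b12 o o' k) q'.1 q'.2 (z12 _ _ _ le_rfl) _ ?_ ?_
        · intro x hx1 hx2
          change BN.rm (op (if x.1 = q'.1 ∧ (q'.2 : ℕ) + 1 = (x.2 : ℕ) then (1 : Γ) else 0)) _ = _
          rw [if_pos ⟨hx1.symm, hx2⟩, op_one, map_one, Module.End.one_apply]
        · intro x hx
          change BN.rm (op (if x.1 = q'.1 ∧ (q'.2 : ℕ) + 1 = (x.2 : ℕ) then (1 : Γ) else 0)) _ = _
          rw [if_neg (fun h => hx ⟨h.1.symm, h.2⟩), rm_zero]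
      · refine sum_shift (fun o' k => b22 ((q.2 : ℕ) + k) q.1 o') q'.1 q'.2
          (z22 _ _ _ (Nat.le_add_left _ _)) _ ?_ ?_
        · intro x hx1 hx2
          change BN.rm (op (if x.1 = q'.1 ∧ (q'.2 : ℕ) + 1 = (x.2 : ℕ) then (1 : Γ) else 0)) _ = _
          rw [if_pos ⟨hx1.symm, hx2⟩, op_one, map_one, Module.End.one_apply]
        · intro x hx
          change BN.rm (op (if x.1 = q'.1 ∧ (q'.2 : ℕ) + 1 = (x.2 : ℕ) then (1 : Γ) else 0)) _ = _
          rw [if_neg (fun h => hx ⟨h.1.symm, h.2⟩), rm_zero]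
  refine ⟨μ, ?_, ?_, ?_⟩
  · -- equivariance
    rintro u v w (o | ⟨o, k⟩) (o' | ⟨o', k'⟩)
    · exact e11 (u, v, w) (o, o')
    · change b12 ((u, v) • o) ((v, w) • o') k' = wrp G.om BN (u, w) (b12 o o' k')
      rw [hb12]
      simp only
      have h1 : m12 ((u, v) • o, (v, w) • o') = wrp G.om BN (u, w) (m12 (o, o')) :=
        e12 (u, v, w) (o, o')
      rw [h1, FX.dg, wrp_lm, map_smul]
    · change b21 ((v, w) • o') ((u, v) • o) k = wrp G.om BN (u, w) (b21 o' o k)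
      rw [hb21]
      simp only
      have h1 : m21 ((u, v) • o, (v, w) • o') = wrp G.om BN (u, w) (m21 (o, o')) :=
        e21 (u, v, w) (o, o')
      rw [h1, FX.dg, wrp_rm, map_smul]
    · change b22 ((k : ℕ) + k') ((u, v) • o) ((v, w) • o') =
        wrp G.om BN (u, w) (b22 ((k : ℕ) + k') o o')
      rw [hb22]
      simp only
      have h1 : m22 ((k : ℕ) + k') ((u, v) • o, (v, w) • o') =
          wrp G.om BN (u, w) (m22 ((k : ℕ) + k') (o, o')) := e22 _ (u, v, w) (o, o')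
      split_ifs
      · exact h1
      · rw [map_zero]
  · -- balanced
    intro η ξ'
    rw [sP, sQ]
    rcases η with o | ⟨o, k⟩ <;> rcases ξ' with o' | ⟨o', k'⟩
    · change χ (FX.deg o)⁻¹ • BN.lm G.y (m11 (o, o')) = χ (FX.deg o') • BN.rm (op G.y) (m11 (o, o'))
      have h1 : BN.lm G.y (m11 (o, o')) =
          χ (FX.deg o * FX.deg o') • BN.rm (op G.y) (m11 (o, o')) := t11 (o, o')
      rw [h1, map_mul, smul_smul, ← mul_assoc, hcc, one_mul]
    · change χ (FX.deg o)⁻¹ • BN.lm G.y (b12 o o' k') = b12 o o' ((k' : ℕ) + 1)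
      rw [hb12]
      simp only
      rw [map_smul, smul_smul, lm_lm, ← pow_succ', ← pow_succ']
    · change b21 o' o ((k : ℕ) + 1) = χ (FX.deg o') • BN.rm (op G.y) (b21 o' o k)
      rw [hb21]
      simp only
      rw [map_smul, smul_smul, rm_rm, ← pow_succ', ← pow_succ']
    · change b22 ((k : ℕ) + 1 + k') o o' = b22 ((k : ℕ) + ((k' : ℕ) + 1)) o o'
      rw [show (k : ℕ) + 1 + k' = (k : ℕ) + ((k' : ℕ) + 1) by omega]
  · -- congruence
    rintro (o | ⟨o, k⟩) (o' | ⟨o', k'⟩)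
    · exact c11 (o, o')
    · change Cg p (b12 o o' k') (β (FX.g o) (BX.lm (G.y ^ (k' : ℕ)) (FX.h o')))
      rw [hb12]
      simp only
      have s1 : Cg p (BN.lm (G.y ^ (k' : ℕ)) (m12 (o, o')))
          (BN.lm (G.y ^ (k' : ℕ)) (β (FX.g o) (FX.h o'))) :=
        Cg.map (BN.lm (G.y ^ (k' : ℕ))) (c12 (o, o'))
      have s2 : Cg p (BN.lm (G.y ^ (k' : ℕ)) (β (FX.g o) (FX.h o')))
          (β (BX.lm (G.y ^ (k' : ℕ)) (FX.g o)) (FX.h o')) := Cg.symm (hβ.1 _ _ _)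
      have s3 : Cg p (β (BX.rm (op (G.y ^ (k' : ℕ))) (FX.g o)) (FX.h o'))
          (β (FX.g o) (BX.lm (G.y ^ (k' : ℕ)) (FX.h o'))) := hβ.2.1 _ _ _
      rw [hpow, map_smul, LinearMap.smul_apply] at s2
      refine ((s1.trans s2).smul (χ (FX.deg o)⁻¹ ^ (k' : ℕ))).trans ?_
      rw [smul_smul, ← mul_pow, hcc, one_pow, one_smul]
      exact s3
    · change Cg p (b21 o' o k) (β (BX.rm (op (G.y ^ (k : ℕ))) (FX.h o)) (FX.g o'))
      rw [hb21]
      simp only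
      have s1 : Cg p (BN.rm (op (G.y ^ (k : ℕ))) (m21 (o, o')))
          (BN.rm (op (G.y ^ (k : ℕ))) (β (FX.h o) (FX.g o'))) :=
        Cg.map (BN.rm (op (G.y ^ (k : ℕ)))) (c21 (o, o'))
      have s2 : Cg p (BN.rm (op (G.y ^ (k : ℕ))) (β (FX.h o) (FX.g o')))
          (β (FX.h o) (BX.rm (op (G.y ^ (k : ℕ))) (FX.g o'))) := Cg.symm (hβ.2.2 _ _ _)
      have s3 : Cg p (β (BX.rm (op (G.y ^ (k : ℕ))) (FX.h o)) (FX.g o'))
          (β (FX.h o) (BX.lm (G.y ^ (k : ℕ)) (FX.g o'))) := hβ.2.1 _ _ _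
      rw [hpow, map_smul] at s3
      exact ((s1.trans s2).smul _).trans s3.symm
    · change Cg p (b22 ((k : ℕ) + k') o o')
        (β (BX.rm (op (G.y ^ (k : ℕ))) (FX.h o)) (BX.lm (G.y ^ (k' : ℕ)) (FX.h o')))
      have s3 : Cg p (β (BX.rm (op (G.y ^ (k' : ℕ))) (BX.rm (op (G.y ^ (k : ℕ))) (FX.h o))) (FX.h o'))
          (β (BX.rm (op (G.y ^ (k : ℕ))) (FX.h o)) (BX.lm (G.y ^ (k' : ℕ)) (FX.h o'))) :=
        hβ.2.1 _ _ _
      rw [rm_rm, ← pow_add, add_comm] at s3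
      refine Cg.trans ?_ s3
      rw [hb22]
      simp only
      split_ifs with hk
      · exact c22 _ (o, o')
      · rw [hy _ (by omega), rm_zero, map_zero, LinearMap.zero_apply]
        exact Cg.refl _

end Pool.Agent.PFE.H28
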